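import Pool.Agent.Lib.S3.PM.Run

/-!
# The pair machine: the wall budget (smoothed Hirsch, MP_4a5c02_co)

`bud_le`: the number of walls of a side is at most `((c + 1) * (n + 1) + C0 * n) / cw`.
-/

set_option autoImplicit false

open Matrix

namespace Pool.Agent.Lib.S3.PM

open Pool.Agent.Lib.S3.PL Pool.Agent.Lib.S3.Mach

variable {m n : ℕ}

/-- The wall budget of a side: `cw * k ≤ (c + 1) * (n + 1) + C0 * n`. -/
theorem bud_le_mul {C : Cf m} {ω : Om m n} {M : ℝ} {c C0 cw : ℕ} {s : Bool} (hM : 2 ≤ M)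
    (hnM : (n : ℝ) + 1 ≤ M) (hρ : ∀ r j, |rho ω r j| ≤ M ^ c) (hN : ∀ j, |Nf ω j| ≤ M ^ c)
    (e : Fin n → Row m) (he : ∀ k, e k ∈ up (C.I s))
    (hdet : (M ^ (C0 * n))⁻¹ ≤ |(amat (Nf ω) (rho ω) e).det|) {S : St m n} {k : ℕ}
    (hk : Bud C S ω (M ^ cw) s k) : cw * k ≤ (c + 1) * (n + 1) + C0 * n :=
  wall_budget (rho ω) (Nf ω) (up (C.I s)) (avl C S s) M c C0 cw k hM hnM
    (fun r _ j => hρ r j) hN e he hdet hk

/-- The wall budget of a side. -/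
theorem bud_le {C : Cf m} {ω : Om m n} {M : ℝ} {c C0 cw : ℕ} (hcw : 0 < cw) {s : Bool}
    (hM : 2 ≤ M) (hnM : (n : ℝ) + 1 ≤ M) (hρ : ∀ r j, |rho ω r j| ≤ M ^ c)
    (hN : ∀ j, |Nf ω j| ≤ M ^ c) (e : Fin n → Row m) (he : ∀ k, e k ∈ up (C.I s))
    (hdet : (M ^ (C0 * n))⁻¹ ≤ |(amat (Nf ω) (rho ω) e).det|) {S : St m n} {k : ℕ}
    (hk : Bud C S ω (M ^ cw) s k) : k ≤ ((c + 1) * (n + 1) + C0 * n) / cw := by
  rw [Nat.le_div_iff_mul_le hcw, mul_comm]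
  exact bud_le_mul hM hnM hρ hN e he hdet hk

end Pool.Agent.Lib.S3.PM
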