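import Pool.Agent.Lib.S3.PL.RepB
import Pool.Agent.Lib.S3.Leg.Win

/-!
# The pair machine: the start state (smoothed Hirsch, MP_4a5c02_co)

At the start state the vertex `u` of the basis `I s` minimises the natural objective, with value
`0`, and all its tight rows are available.
-/

set_option autoImplicit false

open Matrix

namespace Pool.Agent.Lib.S3.PM

open Pool.Agent.Lib.S3.PL Pool.Agent.Lib.S3.Leg

variable {m n : ℕ}

private theorem fnl_dotP (ω : Om m n) (c : Row m → ℝ) (X : Fin (n + 1) → ℝ) :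
    fnl ω c ⬝ᵥ X = ∑ r, c r * (rho ω r ⬝ᵥ X) := by
  unfold fnl
  rw [sum_dotProduct]
  refine Finset.sum_congr rfl fun r _ => ?_
  rw [smul_dotProduct, smul_eq_mul]

/-- The coefficients of the natural objective at the start. -/
theorem cfG_st0 (P : Par) (C : Cf m) (s : Bool) (ω : Om m n) (r : Row m) :
    cfG C (st0 P C : St m n) s ω r =
      (match r with
        | none => 0
        | some j => if j ∈ C.I s then (if j ∈ C.Y s then 0 else P.Th) + ω (.nu s j) else 0) := by
  classical
  unfold cfG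
  have h1 : (∑ l : Fin (n + 1), if (r, l) ∈ (st0 P C : St m n).B s then ω (.om s r l) else 0)
      = 0 := by
    refine Finset.sum_eq_zero fun l _ => ?_
    rw [if_neg]
    exact Finset.notMem_empty _
  rw [h1, add_zero]
  match r with
  | none => rfl
  | some j =>
    simp only [st0, Finset.notMem_empty, not_false_iff, and_true]

theorem cfG_st0_nonneg {P : Par} (hTh : 0 ≤ P.Th) (C : Cf m) (s : Bool) {ω : Om m n}
    (hν : ∀ j, 0 ≤ ω (.nu s j)) (r : Row m) : 0 ≤ cfG C (st0 P C : St m n) s ω r := by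
  classical
  rw [cfG_st0]
  match r with
  | none => exact le_rfl
  | some j =>
    simp only
    split_ifs
    · have := hν j; linarith
    · have := hν j; linarith
    · exact le_rfl

/-- The start value is `0`. -/
theorem start_val (P : Par) (C : Cf m) (s : Bool) (ω : Om m n) {u : Fin (n + 1) → ℝ}
    (hu : ∀ j ∈ C.I s, rho ω (some j) ⬝ᵥ u = 0) :
    fnl ω (cfG C (st0 P C : St m n) s ω) ⬝ᵥ u = 0 := by
  classical
  rw [fnl_dotP]
  refine Finset.sum_eq_zero fun r _ => ?_
  rw [cfG_st0]
  match r with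
  | none => simp
  | some j =>
    simp only
    by_cases hj : j ∈ C.I s
    · rw [hu j hj, mul_zero]
    · rw [if_neg hj, zero_mul]

/-- The start point minimises the natural objective. -/
theorem start_mn {P : Par} (hTh : 0 ≤ P.Th) (C : Cf m) (s : Bool) {ω : Om m n}
    (hν : ∀ j, 0 ≤ ω (.nu s j)) {u : Fin (n + 1) → ℝ} (hF : Fe (rho ω) (Nf ω) ∅ u)
    (hu : ∀ j ∈ C.I s, rho ω (some j) ⬝ᵥ u = 0) :
    Mn (rho ω) (Nf ω) (up (st0 P C : St m n).R) (fnl ω (cfG C (st0 P C : St m n) s ω)) u := by
  have hR : up (st0 P C : St m n).R = ∅ := rfl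
  rw [hR]
  refine ⟨hF, fun y hy => ?_⟩
  rw [start_val P C s ω hu, fnl_dotP]
  exact Finset.sum_nonneg fun r _ => mul_nonneg (cfG_st0_nonneg hTh C s hν r) (hy.1 r)

/-- The tight rows of the start point are available when there are only `n` of them. -/
theorem start_avl (P : Par) (C : Cf m) (s : Bool) {ω : Om m n} {u : Fin (n + 1) → ℝ}
    (hu : ∀ j ∈ C.I s, rho ω (some j) ⬝ᵥ u = 0) (hI : (C.I s).card = n)
    (ht : (tgt (rho ω) u).card ≤ n) :
    ∀ r ∈ tgt (rho ω) u, r ∈ avl C (st0 P C : St m n) s := by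
  have h1 : up (C.I s) ⊆ tgt (rho ω) u := by
    intro r hr
    obtain ⟨j, hj, rfl⟩ := mem_up'.1 hr
    exact mem_tgt.2 (hu j hj)
  have h2 : (up (C.I s)).card = n := by
    unfold up
    rw [Finset.card_map]; exact hI
  have h3 : up (C.I s) = tgt (rho ω) u := Finset.eq_of_subset_of_card_le h1 (by omega)
  intro r hr
  rw [← h3] at hr
  exact mem_avl.2 (Or.inl hr)

end Pool.Agent.Lib.S3.PM
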