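import Pool.Agent.Lib.S3.PM.Core
import Pool.Agent.Lib.S3.PM.Budget
import Pool.Agent.Lib.S3.PM.Start
import Pool.Agent.Lib.S3.PL.Side

/-!
# The pair machine: the pair is joined or the sample point is bad (smoothed Hirsch, MP_4a5c02_co)

`Outcome`: the alternatives of a leg of one side (the conclusion of the leg lemma of the machine).
`pair_run`: if every leg has an outcome then the two vertices are joined or `ω` is in the bad set.
-/

set_option autoImplicit false

open Matrix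

namespace Pool.Agent.Lib.S3.PM

open Pool.Agent.Lib.S3.PL Pool.Agent.Lib.S3.Mach Pool.Agent.Lib.S3.Leg

variable {m n : ℕ}

/-- The loss of value in a closed leg. -/
noncomputable def dr (P : Par) (al : ℝ) : ℝ := (P.K1 * P.dl) * al + P.dl

/-- The number of steps of a leg up to the end of the exit line. -/
def lenE (P : Par) (Lw : ℕ) : ℕ := P.K1 * Lw + (Lw + P.K3 * Lw)

/-- The alternatives of a leg of the side `s` with the private column `i`. -/
def Outcome (P : Par) (C : Cf m) (S : St m n) (s : Bool) (i : Fin m) (ω : Om m n) (c al : ℝ)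
    (Lw : ℕ) (u : Fin (n + 1) → ℝ) (len : ℕ) (h : ℝ) : Prop :=
  (∃ e, Opt (Nf ω) (rho ω) (fnl ω (cfJ P i ω)) (up S.R) ∅ e ∧
    RcC ω (len + lenE P Lw) u (pt (Nf ω) (rho ω) e)) ∨
  (∃ p D, Mv.hv s i p D ∈ labs P C S ∧ ω ∈ Ev P C S (.hv s i p D)) ∨
  (∃ k e T, Mv.lf s i k e T ∈ labs P C S ∧ ω ∈ Ev P C S (.lf s i k e T)) ∨
  (∃ k T x', Mv.cb s i k T ∈ labs P C S ∧ ω ∈ Ev P C S (.cb s i k T) ∧
    Side C (nxt P S (.cb s i k T)) s ω c u x' (len + P.K1 * Lw) (h + dr P al)) ∨
  (∃ k W x', Mv.cw s i k W ∈ labs P C S ∧ ω ∈ Ev P C S (.cw s i k W) ∧ IsWalls C S s ω c W ∧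
    Side C (nxt P S (.cw s i k W)) s ω c u x' (len + P.K1 * Lw) (h + dr P al))

/-- The invariant of one side, with the length of the walk and the value as functions of the number
of moves. -/
def Sd (P : Par) (C : Cf m) (ω : Om m n) (c al : ℝ) (Lw : ℕ) (u : Bool → Fin (n + 1) → ℝ)
    (S : St m n) (s : Bool) (x : Fin (n + 1) → ℝ) : Prop :=
  Side C S s ω c (u s) x (S.t * (P.K1 * Lw)) (S.t * dr P al)

/-- The end of a leg. -/
def En (P : Par) (ω : Om m n) (Lw J : ℕ) (u : Bool → Fin (n + 1) → ℝ) (S : St m n) (i : Fin m)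
    (s : Bool) : Prop :=
  ∃ e, Opt (Nf ω) (rho ω) (fnl ω (cfJ P i ω)) (up S.R) ∅ e ∧
    RcC ω (J * (P.K1 * Lw) + lenE P Lw) (u s) (pt (Nf ω) (rho ω) e)

/-- Both legs end at the same vertex. -/
theorem join_en {P : Par} {ω : Om m n} {Lw J : ℕ} {u : Bool → Fin (n + 1) → ℝ} {S : St m n}
    {i : Fin m} (h0 : En P ω Lw J u S i false) (h1 : En P ω Lw J u S i true) :
    RcC ω ((J * (P.K1 * Lw) + lenE P Lw) + (J * (P.K1 * Lw) + lenE P Lw)) (u false) (u true) := by
  obtain ⟨e, he, hR⟩ := h0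
  obtain ⟨e', he', hR'⟩ := h1
  rw [he.pt_eq he'] at hR'
  exact Geo.reach_trans hR (Geo.reach_symm hR')

theorem kc_fail {P : Par} {S : St m n} {l : Mv m P} (hf : IsFail l) :
    (nxt P S l).R = insert l.col S.R ∧ (nxt P S l).kc = S.kc ∧ (nxt P S l).B = S.B := by
  cases l with
  | hv s i p D => exact ⟨by simp [nxt, Mv.col], rfl, rfl⟩
  | lf s i k e T => exact ⟨by simp [nxt, Mv.col], rfl, rfl⟩
  | cb s i k T => exact absurd hf (by simp [IsFail])
  | cw s i k W => exact absurd hf (by simp [IsFail])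

theorem kc_close {P : Par} {S : St m n} {s : Bool} {l : Mv m P} (hf : Closes (!s) l) :
    (nxt P S l).R = S.R ∧ (nxt P S l).kc s = S.kc s ∧ (nxt P S l).B s = S.B s := by
  cases l with
  | hv s' i p D => exact absurd hf (by simp [Closes])
  | lf s' i k e T => exact absurd hf (by simp [Closes])
  | cb s' i k T =>
    have hs : s ≠ s' := by
      have h1 : s' = !s := hf
      rw [h1]; cases s <;> simp
    refine ⟨rfl, ?_, ?_⟩
    · funext j
      simp only [nxt]
      rw [if_neg (fun h => hs h.1)]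
    · simp only [nxt]
      rw [if_neg hs]
  | cw s' i k W =>
    have hs : s ≠ s' := by
      have h1 : s' = !s := hf
      rw [h1]; cases s <;> simp
    refine ⟨rfl, ?_, ?_⟩
    · funext j
      simp only [nxt]
      rw [if_neg (fun h => hs h.1)]
    · simp only [nxt]
      rw [if_neg hs]

/-- The side system of the machine. -/
theorem sideSys {P : Par} {C : Cf m} {ω : Om m n} {c al a cB : ℝ} {Lw E J : ℕ}
    {u : Bool → Fin (n + 1) → ℝ} (hc : 1 ≤ c) (hal : 0 ≤ al) (hdl : 0 ≤ P.dl)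
    (hTh : 0 ≤ P.Th) (hν : ∀ s j, 0 ≤ ω (.nu s j))
    (hI : ∀ s, (C.I s).card = n) (hu : ∀ s, VxC ω (u s))
    (huI : ∀ s, ∀ j ∈ C.I s, rho ω (some j) ⬝ᵥ u s = 0)
    (hval : ∀ (S : St m n) s, Ok P C S → fnl ω (cfG C S s ω) ⬝ᵥ u s ≤ cB)
    (hnear : ∀ x, VxC ω x → (near (rho ω) a x).card ≤ E)
    (hleg : ∀ (S : St m n) s i x, Rch P C S → Ok P C S → OkCol C S i → S.t < J →
      Side C S s ω c (u s) x (S.t * (P.K1 * Lw)) (S.t * dr P al) → rho ω (some i) ⬝ᵥ x = 0 →
      Outcome P C S s i ω c al Lw (u s) (S.t * (P.K1 * Lw)) (S.t * dr P al)) :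
    SideSys P C ω c a cB E J (Sd P C ω c al Lw u) (En P ω Lw J u) := by
  classical
  have hdr : 0 ≤ dr P al := by
    unfold dr
    exact add_nonneg (mul_nonneg (mul_nonneg (Nat.cast_nonneg _) hdl) hal) hdl
  have hstep : ∀ (S : St m n) (l : Mv m P),
      S.t * (P.K1 * Lw) + P.K1 * Lw ≤ (nxt P S l).t * (P.K1 * Lw) ∧
      (S.t : ℝ) * dr P al + dr P al ≤ ((nxt P S l).t : ℝ) * dr P al := by
    intro S l
    rw [t_nxt]
    constructor
    · rw [Nat.add_mul, one_mul]
    · push_cast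
      rw [add_mul, one_mul]
  refine ⟨?_, ?_, ?_, ?_, ?_, ?_, ?_⟩
  · -- start
    intro s
    refine ⟨u s, start_mn hTh C s (hν s) (hu s).fe (huI s), hu s, ?_, ?_, ?_⟩
    · show RcC ω ((st0 P C : St m n).t * (P.K1 * Lw)) (u s) (u s)
      have h0 : (st0 P C : St m n).t * (P.K1 * Lw) = 0 := by simp [st0]
      rw [h0]
      exact ⟨hu s, rfl⟩
    · intro r hr
      exact repN_self hc (start_avl P C s (huI s) (hI s) (hu s).card_tgt.le r
        (Finset.mem_sdiff.1 hr).1)
    · rw [start_val P C s ω (huI s)]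
      have h0 : ((st0 P C : St m n).t : ℝ) = 0 := by simp [st0]
      rw [h0, zero_mul, neg_zero]
  · intro S s x hx
    exact hx.mn.1
  · -- value
    intro S s x hok hx
    have huR : Fe (rho ω) (Nf ω) (up S.R) (u s) := by
      have h0 := (hu s).fe
      refine ⟨h0.1, fun r hr => ?_, h0.2.2⟩
      obtain ⟨j, hj, rfl⟩ := mem_up'.1 hr
      have h1 := hok.bu j (hok.Rbu hj)
      refine huI s j ?_
      cases s
      · exact h1.1
      · exact h1.2.1
    exact (hx.mn.2 _ huR).trans (hval S s hok)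
  · intro S s x hx
    exact hnear x hx.vx
  · -- leg
    intro S s x i hrch hok hJ hi hx hi0
    obtain h1 | h1 | h1 | h1 | h1 := hleg S s i x hrch hok hi hJ hx hi0
    · left
      obtain ⟨e, he, hr⟩ := h1
      refine ⟨e, he, Geo.reach_mono ?_ hr⟩
      exact Nat.add_le_add_right (Nat.mul_le_mul_right _ hJ.le) _
    · right; left
      obtain ⟨p, D, hl, hev⟩ := h1
      exact ⟨_, hl, hev, rfl, trivial⟩
    · right; left
      obtain ⟨k, e, T, hl, hev⟩ := h1
      exact ⟨_, hl, hev, rfl, trivial⟩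
    · right; right
      obtain ⟨k, T, x', hl, hev, hS⟩ := h1
      refine ⟨_, hl, hev, rfl, rfl, ⟨x', ?_⟩, ?_⟩
      · exact hS.mono (hstep S _).1 (hstep S _).2
      · intro s' i' k' W h
        exact absurd h (by simp)
    · right; right
      obtain ⟨k, W, x', hl, hev, hW, hS⟩ := h1
      refine ⟨_, hl, hev, rfl, rfl, ⟨x', ?_⟩, ?_⟩
      · exact hS.mono (hstep S _).1 (hstep S _).2
      · intro s' i' k' W' h
        simp only [Mv.cw.injEq] at h
        obtain ⟨rfl, rfl, rfl, rfl⟩ := h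
        exact hW
  · -- fail
    intro S s x l hok hJ hi hf hx hi0
    obtain ⟨h1, h2, h3⟩ := kc_fail (S := S) hf
    have h4 := side_remove (by linarith : (0 : ℝ) ≤ c) hx hi0 h1 (by rw [h2]) (by rw [h3])
    refine h4.mono (le_trans (Nat.le_add_right _ _) (hstep S l).1) ?_
    have := (hstep S l).2
    linarith
  · -- other side
    intro S s x l hok hJ hi hf hx
    obtain ⟨h1, h2, h3⟩ := kc_close (S := S) hf
    have h4 := side_same hx h1 h2 h3
    refine h4.mono (le_trans (Nat.le_add_right _ _) (hstep S l).1) ?_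
    have := (hstep S l).2
    linarith

end Pool.Agent.Lib.S3.PM
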