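import Pool.Agent.Lib.S3.PL.Mach
import Pool.Agent.Lib.S3.PL.RepB

/-!
# The pair machine: runs (smoothed Hirsch, MP_4a5c02_co)

* `Bud C S ω c s k`: on the side `s` there have been `k` walls so far (in terms of the determinant
  potential);
* `pm_run`: if from every state in which both sides satisfy their invariant either the pair is
  joined or a move can be made, then the pair is joined or `ω` lies in the bad set of the machine.
-/

set_option autoImplicit false

open Matrix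

namespace Pool.Agent.Lib.S3.PM

open Pool.Agent.Lib.S3.PL Pool.Agent.Lib.S3.Mach

variable {m n : ℕ}

/-- `k` walls so far on the side `s`. -/
def Bud (C : Cf m) (S : St m n) (ω : Om m n) (c : ℝ) (s : Bool) (k : ℕ) : Prop :=
  c ^ k * MD (rho ω) (Nf ω) (up (C.I s)) ≤ MD (rho ω) (Nf ω) (avl C S s)

theorem bud_st0 (P : Par) (C : Cf m) (ω : Om m n) (c : ℝ) (s : Bool) :
    Bud C (st0 P C : St m n) ω c s 0 := by
  unfold Bud
  rw [pow_zero, one_mul]
  exact MD_mono _ _ (fun r hr => mem_avl.2 (Or.inl hr))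

theorem bud_nxt {P : Par} {C : Cf m} {S : St m n} {ω : Om m n} {c : ℝ} {s : Bool} {k : ℕ}
    (h : Bud C S ω c s k) (mv : Mv m P) : Bud C (nxt P S mv) ω c s k :=
  le_trans h (MD_nxt P C S s ω mv)

theorem bud_cw {P : Par} {C : Cf m} {S : St m n} {ω : Om m n} {c : ℝ} (hc : 0 ≤ c) {s : Bool}
    {k : ℕ} (h : Bud C S ω c s k) {i : Fin m} {k' : Fin (P.K1 + 1)} {W : Finset (Row m)}
    (hW : IsWalls C S s ω c W) : Bud C (nxt P S (.cw s i k' W)) ω c s (k + W.card) := by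
  unfold Bud at h ⊢
  refine le_trans ?_ (MD_walls P C S s ω c hc W hW i k')
  rw [pow_add, mul_comm (c ^ k), mul_assoc]
  exact mul_le_mul_of_nonneg_left h (pow_nonneg hc _)

theorem t_nxt (P : Par) (S : St m n) (mv : Mv m P) : (nxt P S mv).t = S.t + 1 := by
  cases mv <;> rfl

/-- The state is reached from the start state by some moves. -/
def Rch (P : Par) (C : Cf m) (S : St m n) : Prop :=
  ∃ l : List (Mv m P), S = l.foldl (nxt P) (st0 P C)

theorem rch_st0 (P : Par) (C : Cf m) : Rch P C (st0 P C : St m n) := ⟨[], rfl⟩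

theorem rch_nxt {P : Par} {C : Cf m} {S : St m n} (h : Rch P C S) (mv : Mv m P) :
    Rch P C (nxt P S mv) := by
  obtain ⟨l, hl⟩ := h
  refine ⟨l ++ [mv], ?_⟩
  rw [List.foldl_append, ← hl]
  rfl

/-- The run of the pair machine. -/
theorem pm_run (P : Par) (C : Cf m) (ω : Om m n) (c : ℝ) (hc : 0 ≤ c)
    (hC : (C.I false).card = n) (J wm : ℕ)
    (hwm : ∀ (S : St m n) (s : Bool) (k : ℕ), Bud C S ω c s k → k ≤ wm)
    (Sd : St m n → Bool → (Fin (n + 1) → ℝ) → Prop) (Jn : Prop)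
    (hsd : ∀ s, ∃ x, Sd (st0 P C) s x)
    (hstep : ∀ (S : St m n) (x : Bool → Fin (n + 1) → ℝ), Rch P C S → Ok P C S → S.t < J → (∀ s, Sd S s (x s)) →
      Jn ∨ ∃ l ∈ labs P C S, ω ∈ Ev P C S l ∧ (∀ s, ∃ x', Sd (nxt P S l) s x') ∧
        ∀ s i k W, l = .cw s i k W → IsWalls C S s ω c W) :
    Jn ∨ ω ∈ BadU (mach P C) J (2 * wm) (st0 P C) := by
  by_cases hJn : Jn
  · exact Or.inl hJn
  right
  refine bad_of_inv (mach P C) ω
    (fun j w S => Rch P C S ∧ Ok P C S ∧ S.t + j = J ∧ (∀ s, ∃ x, Sd S s x) ∧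
      ∃ k0 k1 : ℕ, Bud C S ω c false k0 ∧ Bud C S ω c true k1 ∧ w + k0 + k1 = 2 * wm)
    ?_ J (2 * wm) (st0 P C)
    ⟨rch_st0 P C, ok_st0 P C, by simp [st0], hsd, 0, 0, bud_st0 P C ω c false, bud_st0 P C ω c true, rfl⟩
  rintro j w S ⟨hrch, hok, htj, hx, k0, k1, hb0, hb1, hw⟩
  choose x hx using hx
  obtain hj | ⟨l, hl, hev, hx', hcw⟩ := hstep S x hrch hok (by omega) hx
  · exact absurd hj hJn
  have hok' : Ok P C (nxt P S l) := ok_nxt hC S l hok hl
  refine ⟨l, hl, ?_⟩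
  have h0 : wt l ≤ w ∧ ∃ k0' k1' : ℕ, Bud C (nxt P S l) ω c false k0' ∧
      Bud C (nxt P S l) ω c true k1' ∧ w - wt l + k0' + k1' = 2 * wm := by
    cases l with
    | hv s i p D =>
      exact ⟨Nat.zero_le _, k0, k1, bud_nxt hb0 _, bud_nxt hb1 _, hw⟩
    | lf s i k e T =>
      exact ⟨Nat.zero_le _, k0, k1, bud_nxt hb0 _, bud_nxt hb1 _, hw⟩
    | cb s i k T =>
      exact ⟨Nat.zero_le _, k0, k1, bud_nxt hb0 _, bud_nxt hb1 _, hw⟩
    | cw s i k W =>
      have hW := hcw s i k W rfl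
      have hwt : wt (Mv.cw s i k W : Mv m P) = W.card := rfl
      cases s with
      | false =>
        have h1 := bud_cw (P := P) hc hb0 (i := i) (k' := k) hW
        have h2 := hwm _ _ _ h1
        have h3 := hwm _ _ _ hb1
        refine ⟨by rw [hwt]; omega, k0 + W.card, k1, h1, bud_nxt hb1 _, by rw [hwt]; omega⟩
      | true =>
        have h1 := bud_cw (P := P) hc hb1 (i := i) (k' := k) hW
        have h2 := hwm _ _ _ h1
        have h3 := hwm _ _ _ hb0
        refine ⟨by rw [hwt]; omega, k0, k1 + W.card, bud_nxt hb0 _, h1, by rw [hwt]; omega⟩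
  obtain ⟨h1, k0', k1', h2, h3, h4⟩ := h0
  refine ⟨h1, hev, rch_nxt hrch l, hok', ?_, hx', k0', k1', h2, h3, h4⟩
  show (nxt P S l).t + j = J
  rw [t_nxt]
  omega

end Pool.Agent.Lib.S3.PM
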