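import Pool.Agent.Lib.S3.PM.Run
import Pool.Agent.Lib.S3.PL.Priv

/-!
# The pair machine: one step (smoothed Hirsch, MP_4a5c02_co)

`pm_core`: the private column and the legs on both sides give a move or the end; the run follows by
`pm_run`. The side invariant `Sd` and the end predicate `En` are abstract.
-/

set_option autoImplicit false

open Matrix

namespace Pool.Agent.Lib.S3.PM

open Pool.Agent.Lib.S3.PL Pool.Agent.Lib.S3.Mach Pool.Agent.Lib.S3.Leg

variable {m n : ℕ}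

/-- The move is a failure. -/
def IsFail {P : Par} : Mv m P → Prop
  | .hv _ _ _ _ => True
  | .lf _ _ _ _ _ => True
  | _ => False

/-- The move closes a leg of the side `s`. -/
def Closes {P : Par} (s : Bool) : Mv m P → Prop
  | .cb s' _ _ _ => s' = s
  | .cw s' _ _ _ => s' = s
  | _ => False

/-- What is needed of the side invariant `Sd` and of the end predicate `En`. -/
structure SideSys (P : Par) (C : Cf m) (ω : Om m n) (c a cB : ℝ) (E J : ℕ)
    (Sd : St m n → Bool → (Fin (n + 1) → ℝ) → Prop) (En : St m n → Fin m → Bool → Prop) :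
    Prop where
  start : ∀ s, ∃ x, Sd (st0 P C) s x
  fe : ∀ S s x, Sd S s x → Fe (rho ω) (Nf ω) (up S.R) x
  val : ∀ S s x, Ok P C S → Sd S s x → fnl ω (cfG C S s ω) ⬝ᵥ x ≤ cB
  near : ∀ S s x, Sd S s x → (near (rho ω) a x).card ≤ E
  leg : ∀ S s x i, Rch P C S → Ok P C S → S.t < J → OkCol C S i → Sd S s x → rho ω (some i) ⬝ᵥ x = 0 →
    En S i s ∨ (∃ l ∈ labs P C S, ω ∈ Ev P C S l ∧ l.col = i ∧ IsFail l) ∨
      ∃ l ∈ labs P C S, ω ∈ Ev P C S l ∧ l.col = i ∧ Closes s l ∧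
        (∃ x', Sd (nxt P S l) s x') ∧ ∀ s' i' k W, l = .cw s' i' k W → IsWalls C S s' ω c W
  fail : ∀ S s x (l : Mv m P), Ok P C S → S.t < J → OkCol C S l.col → IsFail l → Sd S s x →
    rho ω (some l.col) ⬝ᵥ x = 0 → Sd (nxt P S l) s x
  other : ∀ S s x (l : Mv m P), Ok P C S → S.t < J → OkCol C S l.col → Closes (!s) l → Sd S s x →
    Sd (nxt P S l) s x

/-- The pair machine: joined, or in the bad set. -/
theorem pm_core {P : Par} {C : Cf m} {ω : Om m n} {c a cB : ℝ} {E J wm : ℕ}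
    {Sd : St m n → Bool → (Fin (n + 1) → ℝ) → Prop} {En : St m n → Fin m → Bool → Prop}
    (H : SideSys P C ω c a cB E J Sd En) (hc : 0 ≤ c) (hC : (C.I false).card = n)
    (hwm : ∀ (S : St m n) (s : Bool) (k : ℕ), Bud C S ω c s k → k ≤ wm)
    {η0 σ κ : ℝ} (hη0 : 0 < η0) (hη : ∀ r, η0 ≤ ω (.eta r)) (hσ : 1 ≤ η0 * σ)
    (hν : ∀ s j, 0 ≤ ω (.nu s j)) (hom : ∀ s r l, 0 ≤ ω (.om s r l)) (hκ : 0 ≤ κ)
    (hTh : 0 < P.Th) (ha : cB + κ * σ ≤ P.Th * a) (hdl : 0 ≤ P.dl) (hK1 : P.K1 * P.dl ≤ P.Th + κ)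
    (hYI : (C.Y false).card + (C.Y true).card + J + 2 * E ≤ (C.I false ∩ C.I true).card)
    {Jn : Prop} (hJn : ∀ S i, Ok P C S → S.t < J → OkCol C S i → En S i false → En S i true → Jn) :
    Jn ∨ ω ∈ BadU (mach P C) J (2 * wm) (st0 P C) := by
  classical
  refine pm_run P C ω c hc hC J wm hwm Sd Jn H.start ?_
  intro S x hrch hok hJ hx
  -- the private column
  have hkc : ∀ s, ∀ j ∈ C.I s, j ∉ S.R → -κ ≤ S.kc s j := by
    intro s j _ _
    by_cases hY : j ∈ C.Y s
    · rw [hok.kcY s j hY]; linarith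
    · by_cases hb : j ∈ S.bu
      · obtain ⟨k, hk, hkk⟩ := hok.kcb s j hb
        have h1 : (k : ℝ) * P.dl ≤ P.K1 * P.dl :=
          mul_le_mul_of_nonneg_right (by exact_mod_cast hk) hdl
        rw [hkk]; linarith
      · rw [hok.kcU s j hY hb]; linarith
  obtain ⟨i, hi, hi0⟩ := exists_okCol (P := P) (C := C) (S := S) (ω := ω) (η0 := η0) (σ := σ)
    (κ := κ) (cB := cB) (a := a) (E := E) hη0 hη hσ hν hom hκ hTh ha
    hok.Rbu hkc (fun s j _ hY hb => (hok.kcU s j hY hb).ge) (x := x)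
    (fun s => H.fe S s _ (hx s)) (fun s => H.val S s _ hok (hx s)) (fun s => H.near S s _ (hx s))
    (by rw [hok.card]; omega)
  -- a failed leg
  have hfail : ∀ l ∈ labs P C S, ω ∈ Ev P C S l → l.col = i → IsFail l →
      ∃ l ∈ labs P C S, ω ∈ Ev P C S l ∧ (∀ s, ∃ x', Sd (nxt P S l) s x') ∧
        ∀ s i k W, l = .cw s i k W → IsWalls C S s ω c W := by
    intro l hl hev hcol hf
    refine ⟨l, hl, hev, fun s => ⟨x s, ?_⟩, ?_⟩
    · exact H.fail S s (x s) l hok hJ (by rw [hcol]; exact hi) hf (hx s)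
        (by rw [hcol]; exact hi0 s)
    · rintro s' i' k W rfl
      exact absurd hf (by simp [IsFail])
  -- a closed leg
  have hclose : ∀ s, ∀ l ∈ labs P C S, ω ∈ Ev P C S l → l.col = i → Closes s l →
      (∃ x', Sd (nxt P S l) s x') → (∀ s' i' k W, l = .cw s' i' k W → IsWalls C S s' ω c W) →
      ∃ l ∈ labs P C S, ω ∈ Ev P C S l ∧ (∀ s, ∃ x', Sd (nxt P S l) s x') ∧
        ∀ s i k W, l = .cw s i k W → IsWalls C S s ω c W := by
    intro s l hl hev hcol hcl hx' hw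
    refine ⟨l, hl, hev, fun s' => ?_, hw⟩
    by_cases hs : s' = s
    · rw [hs]; exact hx'
    · have hs' : s = !s' := by
        cases s <;> cases s' <;> simp_all
      refine ⟨x s', H.other S s' (x s') l hok hJ (by rw [hcol]; exact hi) ?_ (hx s')⟩
      rw [← hs']; exact hcl
  -- the leg of the side `false`
  rcases H.leg S false (x false) i hrch hok hJ hi (hx false) (hi0 false) with h0 | h0 | h0
  · rcases H.leg S true (x true) i hrch hok hJ hi (hx true) (hi0 true) with h1 | h1 | h1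
    · exact Or.inl (hJn S i hok hJ hi h0 h1)
    · obtain ⟨l, hl, hev, hcol, hf⟩ := h1
      exact Or.inr (hfail l hl hev hcol hf)
    · obtain ⟨l, hl, hev, hcol, hcl, hx', hw⟩ := h1
      exact Or.inr (hclose true l hl hev hcol hcl hx' hw)
  · obtain ⟨l, hl, hev, hcol, hf⟩ := h0
    exact Or.inr (hfail l hl hev hcol hf)
  · obtain ⟨l, hl, hev, hcol, hcl, hx', hw⟩ := h0
    exact Or.inr (hclose false l hl hev hcol hcl hx' hw)

end Pool.Agent.Lib.S3.PM
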