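import Pool.Agent.Lib.S3.PM.PM3
import Pool.Agent.Lib.S3.PL.LegPL
import Pool.Agent.Lib.S3.PL.LegNum

/-!
# The pair lemma (smoothed Hirsch, MP_4a5c02_co)

`outcome`: every leg of the machine has an outcome (from `leg_pl`). `pair_joined`: two vertices with
many common columns are joined by a walk of polynomial length or the sample point is in the bad set
of the machine.
-/

set_option autoImplicit false

open Matrix

namespace Pool.Agent.Lib.S3.PM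

open Pool.Agent.Lib.S3.PL Pool.Agent.Lib.S3.Mach Pool.Agent.Lib.S3.Leg

variable {m n : ℕ}

/-- The copy of the next closing is fresh. -/
theorem fresh {P : Par} {C : Cf m} {S : St m n} (hok : Ok P C S) (hC : (C.I false).card = n)
    {i : Fin m} (hi : OkCol C S i) (s : Bool) (r : Row m) :
    (r, Fin.ofNat (n + 1) S.t) ∉ S.B s := by
  intro h
  have h1 := hok.copy s r _ h
  have h2 := hok.t_lt hC hi
  have h3 : ((Fin.ofNat (n + 1) S.t : Fin (n + 1)) : ℕ) = S.t := by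
    rw [Fin.val_ofNat, Nat.mod_eq_of_lt (by omega)]
  omega

/-- The outcome of a leg. -/
theorem outcome {P : Par} {C : Cf m} {ω : Om m n} {c al : ℝ} (hP : ParOk P al)
    (hG : Geo.GP (PL.cA ω) (Geo.chB m) {none})
    (hbd : Bornology.IsBounded (Geo.Chart (aOf ω) (bOf ω) (Nf ω)))
    (hc : 1 ≤ c) (hMw : ((m : ℝ) + 1) * c ≤ P.Mw) {S : St m n} {s : Bool} {i : Fin m}
    (hok : Ok P C S) (hi : OkCol C S i) (hC : (C.I false).card = n)
    (hfr : ∃ e0 : Fin n → Row m, (amat (Nf ω) (rho ω) e0).det ≠ 0 ∧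
      (∀ k, e0 k ∈ up (C.I s)) ∧ ∀ r ∈ up (C.I s), ∃ k, e0 k = r)
    (hgen : ∀ pos : Pos P, ∃ e,
      Opt (Nf ω) (rho ω) (fnl ω (cfP P C S s i pos ω)) (up S.R) ∅ e)
    {h : ℝ} (hB : ∃ p, LegB P C S s i ω al h p) {u x : Fin (n + 1) → ℝ} {len : ℕ}
    (hx : Side C S s ω c u x len h) (hs : rho ω (some i) ⬝ᵥ x = 0) :
    Outcome P C S s i ω c al ((m + 2) ^ (P.d0 + P.q)) u len h := by
  obtain ⟨p, hB⟩ := hB
  obtain ⟨e0, hd0, hI0, hR0⟩ := hfr
  have hrep : ∀ T : Finset (Row m),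
      (∀ r ∈ T, RepN (rho ω) (Nf ω) c (avl C S s) (up S.R) (rho ω r)) →
        ∃ e, RepB P C S s ω T e := by
    intro T hT
    refine repB_of_repN P C S s ω T c (by linarith) hMw e0 hd0 hI0 ?_ hT
    intro r hr
    obtain ⟨j, hj, rfl⟩ := mem_up'.1 hr
    have h1 := hok.bu j (hok.Rbu hj)
    refine hR0 _ (mem_up.2 ?_)
    cases s
    · exact h1.1
    · exact h1.2.1
  exact leg_pl hP hB hi (fresh hok hC hi s) hc hrep hgen
    (legGeo hG hbd ⟨x, hx.mn.1⟩ (P.d0 + P.q)) hx hs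

/-- **The pair lemma.** -/
theorem pair_joined {P : Par} {C : Cf m} {ω : Om m n} {c al a kap : ℝ} {E J wm : ℕ}
    {u : Bool → Fin (n + 1) → ℝ} (hP : ParOk P al)
    (hG : Geo.GP (PL.cA ω) (Geo.chB m) {none})
    (hbd : Bornology.IsBounded (Geo.Chart (aOf ω) (bOf ω) (Nf ω)))
    (hc : 1 ≤ c) (hMw : ((m : ℝ) + 1) * c ≤ P.Mw)
    (hη : ∀ r, 1 ≤ ω (.eta r)) (hν : ∀ s j, 0 ≤ ω (.nu s j)) (hom0 : ∀ s r l, 0 ≤ ω (.om s r l))
    (hTh : 0 < P.Th) (hkap : 0 ≤ kap) (hK1 : P.K1 * P.dl ≤ P.Th + kap)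
    (ha : 2 * ((n : ℝ) + 1) + kap ≤ P.Th * a)
    (hval : ∀ (S : St m n) s, Ok P C S → fnl ω (cfG C S s ω) ⬝ᵥ u s ≤ 2 * ((n : ℝ) + 1))
    (hI : ∀ s, (C.I s).card = n) (hu : ∀ s, VxC ω (u s))
    (huI : ∀ s, ∀ j ∈ C.I s, rho ω (some j) ⬝ᵥ u s = 0)
    (hfr : ∀ s, ∃ e0 : Fin n → Row m, (amat (Nf ω) (rho ω) e0).det ≠ 0 ∧
      (∀ k, e0 k ∈ up (C.I s)) ∧ ∀ r ∈ up (C.I s), ∃ k, e0 k = r)
    (hnear : ∀ x, VxC ω x → (near (rho ω) a x).card ≤ E)
    (hwm : ∀ (S : St m n) (s : Bool) (k : ℕ), Bud C S ω c s k → k ≤ wm)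
    (hgen : ∀ (S : St m n) s i (pos : Pos P), Rch P C S → Ok P C S → OkCol C S i → S.t < J →
      ∃ e, Opt (Nf ω) (rho ω) (fnl ω (cfP P C S s i pos ω)) (up S.R) ∅ e)
    (hB : ∀ (S : St m n) s i, Ok P C S → OkCol C S i → S.t < J →
      ∃ p, LegB P C S s i ω al (S.t * dr P al) p)
    (hcard : (C.Y false).card + (C.Y true).card + J + 2 * E ≤ (C.I false ∩ C.I true).card) :
    RcC ω ((J * (P.K1 * (m + 2) ^ (P.d0 + P.q)) + lenE P ((m + 2) ^ (P.d0 + P.q))) +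
      (J * (P.K1 * (m + 2) ^ (P.d0 + P.q)) + lenE P ((m + 2) ^ (P.d0 + P.q))))
      (u false) (u true) ∨ ω ∈ BadU (mach P C) J (2 * wm) (st0 P C) := by
  have hS : SideSys P C ω c a (2 * ((n : ℝ) + 1)) E J
      (Sd P C ω c al ((m + 2) ^ (P.d0 + P.q)) u) (En P ω ((m + 2) ^ (P.d0 + P.q)) J u) := by
    refine sideSys hc hP.al0.le hP.dl0.le hTh.le hν hI hu huI hval hnear ?_
    intro S s i x hrch hok hi hJ hx hs
    exact outcome hP hG hbd hc hMw hok hi (hI false) (hfr s)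
      (fun pos => hgen S s i pos hrch hok hi hJ) (hB S s i hok hi hJ) hx hs
  exact pm_core hS (by linarith) (hI false) hwm (η0 := 1) (σ := 1) (κ := kap) one_pos hη
    (by norm_num) hν hom0 hkap hTh (by rw [mul_one]; exact ha) hP.dl0.le hK1 hcard
    (fun S i _ _ _ h0 h1 => join_en h0 h1)

end Pool.Agent.Lib.S3.PM
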